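import Pool.Agent.Helper34.SG.Names
import Pool.Agent.Helper5.SG.Ccc

/-!
# The one-step lemma
-/

namespace Pool.Agent.Helper34.SG

open Set Function

set_option linter.unusedSectionVars false

variable {I : Type} [LinearOrder I] [WellFoundedLT I]

namespace OneStep

/-! ### Sequences of small clopen sets -/

/-- the sequence of empty sets -/
noncomputable def zero (β : I) : NS β where
  U _ u _ := u = ∅
  mono _ _ _ _ _ h := h
  func _ _ _ _ _ h h' := h.trans h'.symm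
  dense _ p hp := ⟨p, ∅, Ext.refl hp, rfl⟩
  small m u p h := by
    subst h
    simp only [wt, Finset.sum_empty]
    positivity

theorem wt_biUnion (n : ℕ) (us : ℕ → Finset (List Bool)) :
    wt ((Finset.range n).biUnion us) ≤ ∑ i ∈ Finset.range n, wt (us i) := by
  induction n with
  | zero => simp [wt]
  | succ n ih =>
    rw [Finset.range_add_one, Finset.biUnion_insert, Finset.sum_insert Finset.notMem_range_self]
    have h : wt (us n ∪ (Finset.range n).biUnion us) ≤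
        wt (us n) + wt ((Finset.range n).biUnion us) := by
      unfold wt
      rw [← Finset.sum_union_inter]
      have : 0 ≤ ∑ x ∈ us n ∩ (Finset.range n).biUnion us, (1 / 2 : ℝ) ^ x.length :=
        Finset.sum_nonneg fun _ _ => by positivity
      linarith
    linarith

theorem sum_half (M n : ℕ) : ∑ i ∈ Finset.range n, (1 / 2 : ℝ) ^ (M + i + 1) =
    (1 / 2) ^ M - (1 / 2) ^ (M + n) := by
  induction n with
  | zero => simp
  | succ n ih =>
    rw [Finset.sum_range_succ, ih]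
    ring

theorem exists_values {β : I} (Nx : ℕ → NS β) (M : ℕ) (n : ℕ) {p : Cn I} (hp : Val β p) :
    ∃ q, Ext β q p ∧ ∃ us : ℕ → Finset (List Bool), ∀ i < n, (Nx i).U (M + i + 1) (us i) q := by
  induction n with
  | zero => exact ⟨p, Ext.refl hp, fun _ => ∅, fun _ h => absurd h (Nat.not_lt_zero _)⟩
  | succ n ih =>
    obtain ⟨q, hq, us, hus⟩ := ih
    obtain ⟨q', u, hq', hu⟩ := (Nx n).dense (M + n + 1) q hq.1
    refine ⟨q', hq'.trans hq, update us n u, fun i hi => ?_⟩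
    by_cases h : i = n
    · subst h
      rwa [update_self]
    · rw [update_of_ne h]
      exact (Nx i).mono _ _ _ _ hq' (hus i (by omega))

/-- the union of the sets number `max m e₀ + i + 1` of the sequences number `i ≤ max m e₀` -/
noncomputable def comb {β : I} (Nx : ℕ → NS β) (e₀ : ℕ) : NS β where
  U m u p := ∃ us : ℕ → Finset (List Bool),
    (∀ i < max m e₀ + 1, (Nx i).U (max m e₀ + i + 1) (us i) p) ∧
      u = (Finset.range (max m e₀ + 1)).biUnion us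
  mono m u p q hq := by
    rintro ⟨us, h1, h2⟩
    exact ⟨us, fun i hi => (Nx i).mono _ _ _ _ hq (h1 i hi), h2⟩
  func m u v p hp := by
    rintro ⟨us, h1, rfl⟩ ⟨vs, h3, rfl⟩
    refine Finset.biUnion_congr rfl fun i hi => ?_
    have hi' := Finset.mem_range.1 hi
    exact (Nx i).func _ _ _ p hp (h1 i hi') (h3 i hi')
  dense m p hp := by
    obtain ⟨q, hq, us, hus⟩ := exists_values Nx (max m e₀) (max m e₀ + 1) hp
    exact ⟨q, _, hq, us, hus, rfl⟩
  small m u p := by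
    rintro ⟨us, h1, rfl⟩
    refine (wt_biUnion _ us).trans ?_
    have h2 : ∑ i ∈ Finset.range (max m e₀ + 1), wt (us i) ≤
        ∑ i ∈ Finset.range (max m e₀ + 1), (1 / 2 : ℝ) ^ (max m e₀ + i + 1) :=
      Finset.sum_le_sum fun i hi => (Nx i).small _ _ p (h1 i (Finset.mem_range.1 hi))
    rw [sum_half] at h2
    have h3 : (0 : ℝ) ≤ (1 / 2) ^ (max m e₀ + (max m e₀ + 1)) := by positivity
    have h4 : ((1 : ℝ) / 2) ^ (max m e₀) ≤ (1 / 2) ^ m :=
      pow_le_pow_of_le_one (by norm_num) (by norm_num) (le_max_left _ _)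
    linarith

/-! ### Names -/

theorem Covers.mono {ξ β : I} {O : List Bool → Cn I → Prop} {N : NS β} {p q : Cn I}
    (h : Covers ξ O N p) (hq : Ext ξ q p) : Covers ξ O N q :=
  fun m u q' hq' hu => h m u q' (hq'.trans hq) hu

theorem CN.ext_append {ξ : I} (T : CN ξ) (σ τ : List Bool) {p : Cn I} (h : T.O σ p) :
    T.O (σ ++ τ) p := by
  induction τ using List.reverseRecOn with
  | nil => simpa using h
  | append_singleton l b ih =>
    rw [← List.append_assoc]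
    exact T.ext _ _ _ ih

theorem Apart.take {σ : List Bool} {u : Finset (List Bool)} (h : Apart σ u) {k : ℕ}
    (hk : ∀ τ ∈ u, τ.length ≤ k) : Apart (σ.take k) u := by
  intro τ hτ
  obtain ⟨h1, h2⟩ := h τ hτ
  refine ⟨fun h3 => h1 (h3.trans (List.take_prefix _ _)), fun h3 => ?_⟩
  rcases Nat.lt_or_ge σ.length k with h4 | h4
  · rw [List.take_of_length_le h4.le] at h3
    exact h2 h3
  · have h5 : (σ.take k).length = k := by rw [List.length_take]; omega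
    have h6 := h3.length_le
    have h7 := hk τ hτ
    have h8 : σ.take k = τ := h3.eq_of_length (by omega)
    exact h1 (h8 ▸ List.take_prefix _ _)

section

variable {β ξ ξ' : I} (hξ : ∀ η, η < ξ' ↔ η ≤ ξ) (T : CN ξ')

/-- below `b`, the set `T_(t ++ [j])` is disjoint from `[σ]` if `T_t` is, for `j ≥ M` -/
def PS (t : List ℕ) (σ : List Bool) (b : Cn I) (M : ℕ) : Prop :=
  ∀ j ≥ M, ∀ b', Ext ξ b' b → (T.nd hξ t).O σ b' → (T.nd hξ (t ++ [j])).O σ b'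

theorem PS.mono {t : List ℕ} {σ : List Bool} {b b' : Cn I} {M M' : ℕ} (h : PS hξ T t σ b M)
    (hb : Ext ξ b' b) (hM : M ≤ M') : PS hξ T t σ b' M' :=
  fun j hj b'' hb'' hO => h j (hM.trans hj) b'' (hb''.trans hb) hO

theorem exists_PS (t : List ℕ) (σ : List Bool) {b : Cn I} (hb : Val ξ b) :
    ∃ b₁ M, Ext ξ b₁ b ∧ PS hξ T t σ b₁ M := by
  have hlt : ξ < ξ' := (hξ ξ).2 le_rfl
  by_cases h : ∃ b₁, Ext ξ b₁ b ∧ (T.nd hξ t).O σ b₁
  · obtain ⟨b₁, hb₁, hO⟩ := h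
    obtain ⟨p, h1, h2, h3, h4, h5⟩ := hO b₁ (Ext.refl hb₁.1)
    obtain ⟨r₁, hr₁, M, hM⟩ := exists_bound h2.1 (h1.valF hlt h3) t
    refine ⟨r₁, M, (hr₁.trans h2).trans hb₁, fun j hj b' hb' _ r₂ hr₂ => ?_⟩
    have hrp : Ext ξ r₂ p := (hr₂.trans hb').trans hr₁
    have hmix := mix_ext hrp h1
    have hd : (mix ξ r₂ p).dom ξ := (mix_dom le_rfl).2 h3
    have hob : Ob ξ (mix ξ r₂ p) ((mix ξ r₂ p).fc ξ) ((mix ξ r₂ p).fm ξ) ((mix ξ r₂ p).st ξ) j := by
      rw [mix_fc le_rfl, mix_fm le_rfl, mix_st le_rfl, h4]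
      exact (hM j hj).mono ((mix_agr ξ r₂ p).le.trans (hr₂.trans hb').2)
    have hadd := addV_ext hmix.1 hlt hd hob
    refine ⟨_, hadd.1, ?_, Or.inl rfl, ?_, (T.reg σ).mono _ _ (hadd.trans hmix) h5⟩
    · exact (hadd.anti hlt.le).trans_le (mix_agr ξ r₂ p).le
    · rw [upd_st, mix_st le_rfl, h4]
  · push Not at h
    exact ⟨b, 0, Ext.refl hb, fun j _ b' hb' hO => absurd hO (h b' hb')⟩

theorem exists_PSF (t : List ℕ) (F : Finset (List Bool)) {b : Cn I} (hb : Val ξ b) :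
    ∃ b₁ M, Ext ξ b₁ b ∧ ∀ σ ∈ F, PS hξ T t σ b₁ M := by
  classical
  induction F using Finset.induction_on with
  | empty => exact ⟨b, 0, Ext.refl hb, fun σ h => absurd h (Finset.notMem_empty σ)⟩
  | insert σ F hσ ih =>
    obtain ⟨b₁, M, h1, h2⟩ := ih
    obtain ⟨b₂, M', h3, h4⟩ := exists_PS hξ T t σ h1.1
    refine ⟨b₂, max M M', h3.trans h1, fun τ hτ => ?_⟩
    rcases Finset.mem_insert.1 hτ with rfl | hτ
    · exact h4.mono hξ T (Ext.refl h3.1) (le_max_right _ _)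
    · exact (h2 τ hτ).mono hξ T h3 (le_max_left _ _)

theorem exists_decide (hβ : β ≤ ξ) (Nx : ℕ → NS β) (P : Finset (ℕ × ℕ)) {b : Cn I}
    (hb : Val ξ b) : ∃ b₁ H, Ext ξ b₁ b ∧ ∀ x ∈ P, ∃ u, (Nx x.1).U (x.2 + x.1 + 1) u b₁ ∧
      ∀ τ ∈ u, τ.length ≤ H := by
  classical
  induction P using Finset.induction_on with
  | empty => exact ⟨b, 0, Ext.refl hb, fun σ h => absurd h (Finset.notMem_empty σ)⟩
  | insert x P hx ih =>
    obtain ⟨b₁, H, h1, h2⟩ := ih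
    obtain ⟨q, u, hq, hu⟩ := (Nx x.1).dense (x.2 + x.1 + 1) b₁ (h1.1.anti hβ)
    have h3 := mix_ext hq h1.1
    refine ⟨mix β q b₁, max H (u.sup List.length), h3.trans h1, fun y hy => ?_⟩
    rcases Finset.mem_insert.1 hy with rfl | hy
    · exact ⟨u, (Nx y.1).mono _ _ _ _ (mix_ext' hq.1) hu,
        fun τ hτ => (Finset.le_sup (f := List.length) hτ).trans (le_max_right _ _)⟩
    · obtain ⟨v, hv, hv'⟩ := h2 y hy
      exact ⟨v, (Nx y.1).mono _ _ _ _ (h3.anti hβ) hv,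
        fun τ hτ => (hv' τ hτ).trans (le_max_left _ _)⟩

/-- The conditions of the second stage. -/
def DB (Nx : ℕ → NS β) (K L : ℕ) (t : List ℕ) (b : Cn I) (H M : ℕ) : Prop :=
  K ≤ M ∧ (∀ i m, i ≤ m → m < L → ∃ u, (Nx i).U (m + i + 1) u b ∧ ∀ τ ∈ u, τ.length ≤ H) ∧
    ∀ σ, σ.length ≤ H → PS hξ T t σ b M

theorem exists_DB (hβ : β ≤ ξ) (Nx : ℕ → NS β) (K L : ℕ) (t : List ℕ) {b : Cn I}
    (hb : Val ξ b) : ∃ b₁, Ext ξ b₁ b ∧ ∃ H M, DB hξ T Nx K L t b₁ H M := by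
  classical
  obtain ⟨b₁, H, h1, h2⟩ := exists_decide hβ Nx (Finset.range L ×ˢ Finset.range L) hb
  have hfin : {l : List Bool | l.length ≤ H}.Finite := List.finite_length_le Bool H
  obtain ⟨b₂, M, h3, h4⟩ := exists_PSF hξ T t hfin.toFinset h1.1
  refine ⟨b₂, h3.trans h1, H, max K M, le_max_left _ _, fun i m hi hm => ?_, fun σ hσ => ?_⟩
  · obtain ⟨u, hu, hu'⟩ := h2 (i, m) (by
      rw [Finset.mem_product, Finset.mem_range, Finset.mem_range]
      exact ⟨by omega, hm⟩)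
    exact ⟨u, (Nx i).mono _ _ _ _ (h3.anti hβ) hu, hu'⟩
  · exact (h4 σ (hfin.mem_toFinset.2 hσ)).mono hξ T (Ext.refl h3.1) (le_max_right _ _)

end

/-- the enumeration of a countable antichain with bounds -/
theorem exists_family {ξ : I} (B : Set (Cn I)) (hB : B.Countable) (hV : ∀ b ∈ B, Val ξ b)
    (M : Cn I → ℕ) : ∃ (c : ℕ → Cn I) (m : ℕ → ℕ), (∀ j, Val ξ (c j)) ∧
      (∀ b ∈ B, ∃ j, c j = b ∧ m j = M b) ∧ ∀ j, 0 < m j → c j ∈ B ∧ m j = M (c j) := by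
  rcases B.eq_empty_or_nonempty with rfl | hne
  · exact ⟨fun _ => emp I, fun _ => 0, fun _ => Val_emp ξ, fun b hb => absurd hb (notMem_empty b),
      fun j hj => absurd hj (lt_irrefl _)⟩
  · obtain ⟨f, hf⟩ := hB.exists_eq_range hne
    subst hf
    exact ⟨f, fun j => M (f j), fun j => hV _ (mem_range_self j),
      fun b ⟨j, hj⟩ => ⟨j, hj, congrArg M hj⟩, fun j _ => ⟨mem_range_self j, rfl⟩⟩

section main

variable {β ξ ξ' : I} (hξ : ∀ η, η < ξ' ↔ η ≤ ξ) (T : CN ξ')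

/-- The choices made in the proof of the one-step lemma. -/
structure Data (r : Cn I) where
  A : List ℕ → Set (Cn I)
  kk : List ℕ → Cn I → ℕ
  NA : List ℕ → Cn I → NS β
  e : List ℕ × Cn I → ℕ
  Nx : ℕ → NS β
  B : List ℕ → Set (Cn I)
  aa : List ℕ → Cn I → Cn I
  HH : List ℕ → Cn I → ℕ
  MM : List ℕ → Cn I → ℕ
  cov : ∀ t, ∀ a ∈ A t, Covers ξ (T.ndk hξ t (kk t a)).O (NA t a) a
  nx : ∀ t, ∀ a ∈ A t, Nx (e (t, a)) = NA t a
  cnt : ∀ t, (B t).Countable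
  val : ∀ t, ∀ b ∈ B t, Val ξ b
  anti : ∀ t, ∀ b ∈ B t, ∀ b' ∈ B t, b ≠ b' → Inc ξ b b'
  amem : ∀ t, ∀ b ∈ B t, aa t b ∈ A t
  ale : ∀ t, ∀ b ∈ B t, Le ξ b (aa t b)
  db : ∀ t, ∀ b ∈ B t,
    DB hξ T Nx (kk t (aa t b)) (max (e (t, aa t b)) t.length) t b (HH t b) (MM t b)
  dense : ∀ p, Ext ξ' p r → ∃ w, Ext ξ w p ∧ ∃ b ∈ B (p.st ξ), Le ξ w b

theorem exists_data (hβ : β ≤ ξ) {r : Cn I}
    (H : ∀ p, Ext ξ' p r → ∃ q, Ext ξ' q p ∧ q.st ξ = p.st ξ ∧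
      ∃ k, ∃ N : NS β, Covers ξ (T.ndk hξ (p.st ξ) k).O N q) :
    Nonempty (Data (β := β) hξ T r) := by
  classical
  have hlt : ξ < ξ' := (hξ ξ).2 le_rfl
  have : Inhabited (NS β) := ⟨zero β⟩
  have : Inhabited (Cn I) := ⟨emp I⟩
  choose A hAc hAD hAi hAm using fun t =>
    exists_antichain ξ (fun q => ∃ k, ∃ N : NS β, Covers ξ (T.ndk hξ t k).O N q)
  choose! kk NA hN using fun t a (ha : a ∈ A t) => (hAD t a ha).2
  have hJ : {x : List ℕ × Cn I | x.2 ∈ A x.1}.Countable := by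
    have : {x : List ℕ × Cn I | x.2 ∈ A x.1} = ⋃ t, (fun a => (t, a)) '' A t := by
      ext ⟨t, a⟩
      simp
    rw [this]
    exact countable_iUnion fun t => (hAc t).image _
  obtain ⟨e, he⟩ := countable_iff_exists_injOn.1 hJ
  let Nx : ℕ → NS β := fun i => NA (invFunOn e {x : List ℕ × Cn I | x.2 ∈ A x.1} i).1
    (invFunOn e {x : List ℕ × Cn I | x.2 ∈ A x.1} i).2
  have hNx : ∀ t, ∀ a ∈ A t, Nx (e (t, a)) = NA t a := by
    intro t a ha
    have h1 : invFunOn e {x : List ℕ × Cn I | x.2 ∈ A x.1} (e (t, a)) = (t, a) :=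
      he.leftInvOn_invFunOn ha
    simp only [Nx, h1]
  choose B hBc hBD hBi hBm using fun t => exists_antichain ξ (fun b => ∃ a ∈ A t, Le ξ b a ∧
    ∃ H M, DB hξ T Nx (kk t a) (max (e (t, a)) t.length) t b H M)
  choose! aa haa using fun t b (hb : b ∈ B t) => (hBD t b hb).2
  choose! HH MM hdb using fun t b (hb : b ∈ B t) => (haa t b hb).2.2
  refine ⟨⟨A, kk, NA, e, Nx, B, aa, HH, MM, hN, hNx, hBc, fun t b hb => (hBD t b hb).1, hBi,
    fun t b hb => (haa t b hb).1, fun t b hb => (haa t b hb).2.1, hdb, ?_⟩⟩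
  intro p hp
  obtain ⟨q, hq, hst, k, N, hcov⟩ := H p hp
  obtain ⟨a, ha, hinc⟩ := hAm (p.st ξ) q (hq.1.anti hlt.le) ⟨k, N, hcov⟩
  rw [Inc, not_not] at hinc
  obtain ⟨w₁, h1, h2, h3⟩ := hinc
  obtain ⟨w₂, h4, HW, MW, h5⟩ := exists_DB hξ T hβ Nx (kk (p.st ξ) a)
    (max (e (p.st ξ, a)) (p.st ξ).length) (p.st ξ) h1
  obtain ⟨b, hb, hinc⟩ := hBm (p.st ξ) w₂ h4.1 ⟨a, ha, h4.2.trans h3, HW, MW, h5⟩
  rw [Inc, not_not] at hinc
  obtain ⟨w₃, h6, h7, h8⟩ := hinc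
  exact ⟨w₃, ⟨h6, ((h7.trans h4.2).trans h2).trans (hq.2.anti hlt.le)⟩, b, hb, h8⟩

/-- extending the stem -/
theorem exists_long {r p : Cn I} (hp : Ext ξ' p r) (hd : r.dom ξ) (hlt : ξ < ξ') (L : ℕ) :
    ∃ p', Ext ξ' p' p ∧ L ≤ (p'.st ξ).length := by
  induction L with
  | zero => exact ⟨p, Ext.refl hp.1, Nat.zero_le _⟩
  | succ L ih =>
    obtain ⟨p', h1, h2⟩ := ih
    have hd' : p'.dom ξ := (((Le_iff ξ' _ _).1 (h1.trans hp).2) ξ hlt hd).1
    obtain ⟨q, h3, h4, h5, -, -, M, hM⟩ := exists_addV h1.1 hlt hd'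
    refine ⟨_, ((hM M le_rfl).trans h3).trans h1, ?_⟩
    rw [upd_st, List.length_append, h5, List.length_singleton]
    omega

/-- truncating the stem -/
theorem trunc_ext {r p : Cn I} (hp : Ext ξ' p r) (hd : r.dom ξ) (hξ : ∀ η, η < ξ' ↔ η ≤ ξ)
    {t : List ℕ} (h1 : r.st ξ <+: t) (h2 : t <+: p.st ξ) :
    Ext ξ' (upd ξ p t (p.fc ξ) (p.fm ξ)) r := by
  have hlt : ξ < ξ' := (hξ ξ).2 le_rfl
  have h3 := (Le_iff ξ' _ _).1 hp.2
  have hd' := (h3 ξ hlt hd).1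
  refine ⟨Val_upd hp.1 (hp.1.valF hlt hd'), ?_⟩
  rw [Le_iff]
  intro η hη hdη
  obtain ⟨g1, g2, g3, g4⟩ := h3 η hη hdη
  rcases ((hξ η).1 hη).lt_or_eq with h | h
  · rw [upd_st' h.ne, upd_fc' h.ne, upd_fm' h.ne]
    exact ⟨Or.inr g1, g2, fun t' v k1 k2 => (g3 t' v k1 k2).mono ((upd_agr.anti h.le).le), g4⟩
  · subst h
    rw [upd_st, upd_fc, upd_fm]
    exact ⟨Or.inl rfl, h1, fun t' v k1 k2 => (g3 t' v k1 (k2.trans h2)).mono upd_agr.le, g4⟩

/-- meeting the antichains of all levels -/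
theorem exists_levels {r : Cn I} (D : Data (β := β) hξ T r) (hd : r.dom ξ) {p : Cn I}
    (hp : Ext ξ' p r) (n : ℕ) : ∃ p', Ext ξ' p' p ∧ p'.st ξ = p.st ξ ∧
      ∀ l < n, (r.st ξ).length ≤ l → l ≤ (p.st ξ).length →
        ∃ b ∈ D.B ((p.st ξ).take l), Le ξ p' b := by
  have hlt : ξ < ξ' := (hξ ξ).2 le_rfl
  induction n with
  | zero => exact ⟨p, Ext.refl hp.1, rfl, fun l hl => absurd hl (Nat.not_lt_zero _)⟩
  | succ n ih =>
    obtain ⟨p', h1, h2, h3⟩ := ih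
    by_cases hn : (r.st ξ).length ≤ n ∧ n ≤ (p.st ξ).length
    · have hp' := h1.trans hp
      have h4 : r.st ξ <+: p'.st ξ := ((Le_iff ξ' _ _).1 hp'.2 ξ hlt hd).2.1
      have h5 : r.st ξ <+: (p'.st ξ).take n := by
        rw [List.prefix_take_iff]
        exact ⟨h4, hn.1⟩
      have h6 := trunc_ext hp' hd hξ h5 (List.take_prefix _ _)
      obtain ⟨w, hw, b, hb, hwb⟩ := D.dense _ h6
      rw [upd_st, h2] at hb
      have h7 : Ext ξ w p' := hw.trans_le upd_agr.le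
      have h8 := mix_ext h7 hp'.1
      refine ⟨mix ξ w p', h8.trans h1, (mix_st le_rfl).trans h2, fun l hl hl1 hl2 => ?_⟩
      rcases Nat.lt_succ_iff_lt_or_eq.1 hl with h | rfl
      · obtain ⟨b', hb', h9⟩ := h3 l h hl1 hl2
        exact ⟨b', hb', (h8.2.anti hlt.le).trans h9⟩
      · exact ⟨b, hb, (mix_agr ξ w p').le.trans hwb⟩
    · refine ⟨p', h1, h2, fun l hl hl1 hl2 => ?_⟩
      rcases Nat.lt_succ_iff_lt_or_eq.1 hl with h | rfl
      · exact h3 l h hl1 hl2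
      · exact absurd ⟨hl1, hl2⟩ hn

end main

end OneStep

/-- **The one-step lemma.** -/
theorem one_step {β ξ ξ' : I} (hβ : β ≤ ξ) (hξ : ∀ η, η < ξ' ↔ η ≤ ξ) (T : CN ξ') {r : Cn I}
    (hr : Val ξ' r) (hd : r.dom ξ)
    (H : ∀ p, Ext ξ' p r → ∃ q, Ext ξ' q p ∧ q.st ξ = p.st ξ ∧
      ∃ k, ∃ N : NS β, Covers ξ (T.ndk hξ (p.st ξ) k).O N q) :
    ∃ r', Ext ξ' r' r ∧ ∃ N : NS β, Covers ξ' T.O N r' := by
  classical
  have hlt : ξ < ξ' := (hξ ξ).2 le_rfl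
  obtain ⟨D⟩ := OneStep.exists_data hξ T hβ H
  -- the condition `r₁` below a member `b₀` of the antichain number `r.st ξ`
  obtain ⟨w, hw, b₀, hb₀, hwb⟩ := D.dense r (Ext.refl hr)
  have hr₁ : Ext ξ' (mix ξ w r) r := mix_ext hw hr
  have hr₁d : (mix ξ w r).dom ξ := (mix_dom le_rfl).2 hd
  have hr₁s : (mix ξ w r).st ξ = r.st ξ := mix_st le_rfl
  -- the family
  choose c m hcV hcB hmB using fun t => OneStep.exists_family (D.B t) (D.cnt t) (D.val t) (D.MM t)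
  have hF : ValF ξ c m := by
    refine ⟨fun t j => hcV t j, fun t p hp => ?_⟩
    by_cases h : ∃ b ∈ D.B t, ¬ Inc ξ p b
    · obtain ⟨b, hb, hpb⟩ := h
      rw [Inc, not_not] at hpb
      obtain ⟨q, h1, h2, h3⟩ := hpb
      refine ⟨q, ⟨h1, h2⟩, D.MM t b, fun j hj => ?_⟩
      obtain ⟨h4, h5⟩ := hmB t j (by omega)
      have hne : b ≠ c t j := by
        rintro rfl
        omega
      exact (D.anti t b hb _ h4 hne).mono h3 (Le.refl _ _)
    · push Not at h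
      exact ⟨p, Ext.refl hp, 0, fun j hj => h _ (hmB t j hj).1⟩
  have hr₂ := addF_ext hr₁.1 hr₁d (hr₁.1.valF hlt hr₁d) hF
  set r₂ := upd ξ (mix ξ w r) ((mix ξ w r).st ξ) (jf ((mix ξ w r).fc ξ) c)
    (jf ((mix ξ w r).fm ξ) m) with hr₂def
  have hr₂r : Ext ξ' r₂ r := hr₂.trans hr₁
  have hr₂d : r₂.dom ξ := Or.inl rfl
  have hr₂s : r₂.st ξ = r.st ξ := by rw [hr₂def, upd_st, hr₁s]
  have hr₂b : Le ξ r₂ b₀ := (upd_agr.le.trans (mix_agr ξ w r).le).trans hwb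
  refine ⟨r₂, hr₂r, OneStep.comb D.Nx (D.e (r.st ξ, D.aa (r.st ξ) b₀)), ?_⟩
  intro mm u p hp hU σ hσ
  obtain ⟨us, hus, rfl⟩ := hU
  set m₀ := max mm (D.e (r.st ξ, D.aa (r.st ξ) b₀)) with hm₀
  refine (T.reg σ).dense p hp.1 fun p₀ hp₀ => ?_
  obtain ⟨p₁, hp₁, hlong⟩ := OneStep.exists_long ((hp₀.trans hp).trans hr₂r) hd hlt
    (m₀ + (r.st ξ).length + 2)
  obtain ⟨p₂, hp₂, hst₂, hlev⟩ := OneStep.exists_levels hξ T D hd
    (((hp₁.trans hp₀).trans hp).trans hr₂r) ((p₁.st ξ).length + 1)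
  rw [← hst₂] at hlong hlev
  have hp₂₀ : Ext ξ' p₂ p₀ := hp₂.trans hp₁
  have hp₂p : Ext ξ' p₂ p := hp₂₀.trans hp₀
  have hp₂r₂ : Ext ξ' p₂ r₂ := hp₂p.trans hp
  have hle : ξ ≤ ξ' := hlt.le
  have hV₂ : Val ξ p₂ := hp₂.1.anti hle
  set t := p₂.st ξ with ht
  have hst : r.st ξ <+: t := ((Le_iff ξ' _ _).1 (hp₂r₂.trans hr₂r).2 ξ hlt hd).2.1
  have hlev' : ∀ l, ∃ b, (r.st ξ).length ≤ l → l ≤ t.length → b ∈ D.B (t.take l) ∧ Le ξ p₂ b := by
    intro l
    by_cases h : (r.st ξ).length ≤ l ∧ l ≤ t.length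
    · obtain ⟨b, h1, h2⟩ := hlev l (by omega) h.1 h.2
      exact ⟨b, fun _ _ => ⟨h1, h2⟩⟩
    · exact ⟨emp I, fun h1 h2 => absurd ⟨h1, h2⟩ h⟩
  choose bl hbl using hlev'
  -- the values of the stem are large
  have hval : ∀ l (hl : l < t.length), (r.st ξ).length ≤ l → D.MM (t.take l) (bl l) ≤ t[l] := by
    intro l hl hl1
    by_contra hcon
    push Not at hcon
    obtain ⟨h1, h2⟩ := hbl l hl1 hl.le
    have h3 := ((Le_iff ξ' _ _).1 hp₂r₂.2 ξ hlt hr₂d).2.2.1 (t.take l) t[l] (by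
      rw [hr₂s, List.prefix_take_iff]
      exact ⟨hst, hl1⟩) (by
      rw [← List.take_succ_eq_append_getElem hl]
      exact List.take_prefix _ _)
    rw [hr₂def, upd_fc, upd_fm, Ob_join] at h3
    obtain ⟨j, h4, h5⟩ := hcB (t.take l) (bl l) h1
    have h6 := h3.2 j (by rw [h5]; exact hcon)
    rw [h4] at h6
    exact h6 ⟨p₂, hV₂, Le.refl _ _, h2⟩
  -- the level `n`
  have hb₀' : bl (r.st ξ).length = b₀ := by
    obtain ⟨h1, h2⟩ := hbl (r.st ξ).length le_rfl (by omega)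
    have h3 : t.take (r.st ξ).length = r.st ξ := (List.prefix_iff_eq_take.1 hst).symm
    rw [h3] at h1
    by_contra hne
    exact D.anti _ _ h1 _ hb₀ hne ⟨p₂, hV₂, h2, (hp₂r₂.2.anti hle).trans hr₂b⟩
  let idx : ℕ → ℕ := fun l => D.e (t.take l, D.aa (t.take l) (bl l))
  obtain ⟨n, hn1, hn2, hn3, hn4⟩ : ∃ n, (r.st ξ).length ≤ n ∧ n < t.length ∧ idx n ≤ m₀ ∧
      ∀ l, n < l → l ≤ t.length → m₀ < max (idx l) l := by
    let P : ℕ → Prop := fun l => idx l ≤ m₀ ∧ (l ≤ m₀ ∨ l = (r.st ξ).length)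
    have h0 : P (r.st ξ).length := by
      refine ⟨?_, Or.inr rfl⟩
      have h3 : t.take (r.st ξ).length = r.st ξ := (List.prefix_iff_eq_take.1 hst).symm
      simp only [idx, h3, hb₀']
      exact le_max_right _ _
    have h1 : (r.st ξ).length ≤ t.length := hst.length_le
    have h2 := Nat.findGreatest_spec (P := P) h1 h0
    have h3 : (r.st ξ).length ≤ Nat.findGreatest P t.length := Nat.le_findGreatest h1 h0
    refine ⟨Nat.findGreatest P t.length, h3, ?_, h2.1, fun l hl hl' => ?_⟩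
    · rcases (Nat.findGreatest_le (P := P) t.length).lt_or_eq with h | h
      · exact h
      · rw [h] at h2
        rcases h2.2 with h4 | h4 <;> omega
    · have h4 := Nat.findGreatest_is_greatest hl hl'
      simp only [P, not_and_or, not_or, not_le] at h4
      rw [lt_max_iff]
      rcases h4 with h4 | h4
      · exact Or.inl h4
      · exact Or.inr h4.1
  obtain ⟨hbn, hbn'⟩ := hbl n hn1 hn2.le
  have hA := D.amem _ _ hbn
  have hcov := D.cov _ _ hA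
  rw [← D.nx _ _ hA] at hcov
  have hU₂ : (D.Nx (idx n)).U (m₀ + idx n + 1) (us (idx n)) p₂ :=
    (D.Nx (idx n)).mono _ _ _ _ (hp₂p.anti (hβ.trans hle)) (hus (idx n) (by omega))
  have hσ' : Apart σ (us (idx n)) := fun τ hτ => hσ τ (Finset.mem_biUnion.2
    ⟨idx n, Finset.mem_range.2 (by omega), hτ⟩)
  have hσ₁ : Apart (σ.take ((us (idx n)).sup List.length)) (us (idx n)) :=
    OneStep.Apart.take hσ' fun τ hτ => Finset.le_sup (f := List.length) hτ
  have hk := hcov (m₀ + idx n + 1) (us (idx n)) p₂ ⟨hV₂, hbn'.trans (D.ale _ _ hbn)⟩ hU₂ _ hσ₁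
  have hall : ∀ l, n + 1 ≤ l → l ≤ t.length →
      (T.nd hξ (t.take l)).O (σ.take ((us (idx n)).sup List.length)) p₂ := by
    intro l hl
    induction l, hl using Nat.le_induction with
    | base =>
      intro _
      rw [List.take_succ_eq_append_getElem hn2]
      exact hk.2 _ ((D.db _ _ hbn).1.trans (hval n hn2 hn1))
    | succ l hl ih =>
      intro hl'
      have hl2 : l < t.length := hl'
      obtain ⟨h1, h2⟩ := hbl l (by omega) hl2.le
      obtain ⟨-, h3, h4⟩ := D.db _ _ h1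
      have hlen : (t.take l).length = l := by rw [List.length_take]; omega
      obtain ⟨u', hu', hu''⟩ := h3 (idx n) m₀ hn3 (by
        rw [hlen]
        exact hn4 l (by omega) hl2.le)
      have h5 : u' = us (idx n) := (D.Nx (idx n)).func _ _ _ p₂ (hV₂.anti hβ)
        ((D.Nx (idx n)).mono _ _ _ _ ⟨hV₂.anti hβ, h2.anti hβ⟩ hu') hU₂
      subst h5
      rw [List.take_succ_eq_append_getElem hl2]
      refine h4 _ ?_ _ (hval l hl2 (by omega)) p₂ ⟨hV₂, h2⟩ (ih hl2.le)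
      refine (List.length_take_le _ _).trans ?_
      exact Finset.sup_le hu''
  have hfin := hall t.length (by omega) le_rfl
  rw [List.take_length] at hfin
  obtain ⟨p₃, h1, h2, h3, h4, h5⟩ := hfin p₂ (Ext.refl hV₂)
  have hd₂ : p₂.dom ξ := ((Le_iff ξ' _ _).1 hp₂r₂.2 ξ hlt hr₂d).1
  obtain ⟨v, hv1, hv2, -, -, -⟩ := exists_merge hξ h1 hp₂.1 h2.2 h3 hd₂ h4
  refine ⟨v, hv2.trans hp₂₀, ?_⟩
  have h6 := OneStep.CN.ext_append T _ (σ.drop ((us (idx n)).sup List.length))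
    ((T.reg _).mono _ _ hv1 h5)
  rwa [List.take_append_drop] at h6

end Pool.Agent.Helper34.SG
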